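import Pool.Agent.K.MP_45ff98_nt.C0

/-! Prime free balls of Cramer size in polynomial rings over finite fields of characteristic two. -/

namespace Pool.Agent.Results.MP_45ff98_nt.CharTwoGaps
open Polynomial

theorem result (K : Type) [Field K] [Fintype K] [CharP K 2] (N : ℕ) :
    ∃ f : K[X], f.Monic ∧ N ≤ f.natDegree ∧ ∀ P : K[X], Irreducible P →
      ((Fintype.card K - 1) * f.natDegree) ^ 2 < 16 * Fintype.card K ^ ((P - f).natDegree + 1) :=
  Pool.Agent.P.MP_45ff98_nt.gap N

end Pool.Agent.Results.MP_45ff98_nt.CharTwoGaps
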