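import Pool.Agent.K.MP_45ff98_nt.C4

/-! Long prime free balls in every degree over finite fields of odd characteristic. -/

namespace Pool.Agent.Results.MP_45ff98_nt.OddCharGaps
open Polynomial

theorem result (K : Type) [Field K] [Fintype K] (p : ℕ) [CharP K p] (hp : p ≠ 2) :
    ∃ c : ℝ, 0 < c ∧ ∀ n : ℕ, 2 ≤ n → ∃ f : K[X], f.Monic ∧ f.natDegree = n ∧
      ∀ P : K[X], Irreducible P → c * ((n : ℝ) / Real.log n) ^ ((p : ℝ) / (p - 1)) ≤
        (Fintype.card K : ℝ) ^ (P - f).natDegree :=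
  Pool.Agent.P.MP_45ff98_nt.odd_gap p hp

end Pool.Agent.Results.MP_45ff98_nt.OddCharGaps
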