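import Pool.Agent.K.MP_45ff98_nt.C7

/-! Gaps in the random sieve model of Banks, Ford and Tao. -/

namespace Pool.Agent.Results.MP_45ff98_nt.RandomSieve
open MeasureTheory ProbabilityTheory Real
open scoped ENNReal

theorem result {Ω : Type} [MeasurableSpace Ω] (μ : Measure Ω) [IsProbabilityMeasure μ]
    (a : ℕ → Ω → ℕ) (hm : ∀ p, Measurable (a p))
    (hi : iIndepFun (fun p : Nat.Primes => a p) μ)
    (hu : ∀ p r : ℕ, p.Prime → r < p → μ {ω | a p ω = r} = (p : ℝ≥0∞)⁻¹) :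
    ∀ᵐ ω ∂μ, ∀ ε : ℝ, 0 < ε → ∃ x0 : ℝ, ∀ x : ℝ, x0 ≤ x → ∃ n : ℕ, x < n ∧
      (n : ℝ) < x + ε * (log x ^ 2 * log (log x) / log (log (log x))) ∧ exp 2 ≤ n ∧
      ∀ p : ℕ, p.Prime → 1 / log n ≤ ∏ q ∈ Nat.primesLE p, (1 - 1 / (q : ℝ)) → n % p ≠ a p ω :=
  Pool.Agent.RSv.main μ a hm hi hu

end Pool.Agent.Results.MP_45ff98_nt.RandomSieve
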