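import Pool.Agent.K.MP_45ff98_nt.C3
import Pool.Agent.P.MP_45ff98_nt.Er

/-! Every interval of length `y` contains many integers free of primes up to `√y (log y)^A`. -/

namespace Pool.Agent.Results.MP_45ff98_nt.RoughIntervals

theorem result (A : ℝ) : ∃ y0 : ℝ, ∀ y : ℝ, y0 ≤ y → ∀ x : ℝ,
    A * y * Real.log (Real.log y) / Real.log y ^ 2 ≤
      (Set.ncard {n : ℤ | x < n ∧ n < x + y ∧
        ∀ p : ℕ, p.Prime → (p : ℝ) ≤ √y * Real.log y ^ A → ¬ (p : ℤ) ∣ n} : ℝ) :=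
  Pool.Agent.Jac.main_real A

/-- Side theorem: the interval of the question contains integers with no small prime factor. -/
theorem short_interval (A : ℝ) : ∃ x0 : ℝ, ∀ x : ℝ, x0 ≤ x → ∃ n : ℤ,
    x < n ∧ n < x + Real.log x ^ 2 ∧ ∀ p : ℕ, p.Prime →
      (p : ℝ) ≤ Real.log x * Real.log (Real.log x) ^ A → ¬ (p : ℤ) ∣ n :=
  Pool.Agent.Jac.Er.short_interval result A

/-- Side theorem: residue classes `a p` modulo the primes `p ≤ z`, one for each prime, cover no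
interval of length `z ^ 2 / (log z) ^ A`. -/
theorem no_cover (A : ℝ) : ∃ z0 : ℝ, ∀ z : ℝ, z0 ≤ z → ∀ (a : ℕ → ℤ) (x : ℝ), ∃ n : ℤ,
    x < n ∧ n < x + z ^ 2 / Real.log z ^ A ∧ ∀ p : ℕ, p.Prime → (p : ℝ) ≤ z →
      ¬ (p : ℤ) ∣ n - a p :=
  Pool.Agent.Jac.Er.no_cover result A

/-- Side theorem: the count for arbitrary residue classes. -/
theorem count_classes (A : ℝ) : ∃ y0 : ℝ, ∀ y : ℝ, y0 ≤ y → ∀ (a : ℕ → ℤ) (x : ℝ),
    A * y * Real.log (Real.log y) / Real.log y ^ 2 ≤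
      (Set.ncard {n : ℤ | x < n ∧ n < x + y ∧
        ∀ p : ℕ, p.Prime → (p : ℝ) ≤ √y * Real.log y ^ A → ¬ (p : ℤ) ∣ n - a p} : ℝ) :=
  Pool.Agent.Jac.Er.count_classes result A

end Pool.Agent.Results.MP_45ff98_nt.RoughIntervals
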